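import Pool.Agent.H85.GE.Zero
import Pool.Agent.H59.GE
import Pool.Agent.H59.GE2

/-!
# Minimum modulus of entire functions: the constant in terms of the growth exponent

* `maxMod f r`, `minMod f r` are `M(r,f)` and `m_0(r,f)`; `logM f r = log M(r,f)` and `logMin f r` is
  `log m_0(r,f)` in the extended reals, with `log 0 = -∞`.
* `lowerOrder`, `order`, `Lam`, `LamInf` are the lower order, the order, `Λ(f)` and `Λ_∞(f)`; `C lam`
  and `CInf` are the constants `C(λ)` and `C_∞` of the problem.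
* `growthExp f` is the lower limit of `log log log M(r,f) / log log r`, and `CGrowth k` is the infimum
  of `Λ_∞(f)` over the entire functions `f` of infinite order with `growthExp f ≤ k`.
-/

open Filter Topology

namespace Pool.Agent.Results.MP_06ac62_an.GrowthExponent

/-- The maximum modulus `M(r,f)`: the maximum of `|f|` on the circle `|z| = r`. -/
noncomputable def maxMod (f : ℂ → ℂ) (r : ℝ) : ℝ := ⨆ z : Metric.sphere (0:ℂ) r, ‖f z‖

/-- The minimum modulus `m_0(r,f)`: the minimum of `|f|` on the circle `|z| = r`. -/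
noncomputable def minMod (f : ℂ → ℂ) (r : ℝ) : ℝ := ⨅ z : Metric.sphere (0:ℂ) r, ‖f z‖

/-- `a_f(r) = log M(r,f)`. -/
noncomputable def logM (f : ℂ → ℂ) (r : ℝ) : ℝ := Real.log (maxMod f r)

/-- `b_f(r) = log m_0(r,f)` in the extended reals, with `log 0 = -∞`. -/
noncomputable def logMin (f : ℂ → ℂ) (r : ℝ) : EReal := ENNReal.log (ENNReal.ofReal (minMod f r))

/-- The lower order of `f`: the lower limit of `log a_f(r) / log r` as `r → ∞`. -/
noncomputable def lowerOrder (f : ℂ → ℂ) : EReal :=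
  liminf (fun r : ℝ => ((Real.log (logM f r) / Real.log r : ℝ) : EReal)) atTop

/-- The order of `f`: the upper limit of `log a_f(r) / log r` as `r → ∞`. -/
noncomputable def order (f : ℂ → ℂ) : EReal :=
  limsup (fun r : ℝ => ((Real.log (logM f r) / Real.log r : ℝ) : EReal)) atTop

/-- `Λ(f)`: the upper limit of `b_f(r) / a_f(r)` as `r → ∞`. -/
noncomputable def Lam (f : ℂ → ℂ) : EReal :=
  limsup (fun r : ℝ => logMin f r / (logM f r : EReal)) atTop

/-- `Λ_∞(f)`: the upper limit of `b_f(r) / (a_f(r) log log a_f(r))` as `r → ∞`. -/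
noncomputable def LamInf (f : ℂ → ℂ) : EReal :=
  limsup (fun r : ℝ => logMin f r /
    ((logM f r * Real.log (Real.log (logM f r)) : ℝ) : EReal)) atTop

/-- `C(λ)`: the infimum of `Λ(f)` over the non-constant entire functions `f` of lower order `λ`. -/
noncomputable def C (lam : ℝ) : EReal :=
  sInf {L : EReal | ∃ f : ℂ → ℂ, Differentiable ℂ f ∧ (¬ ∃ c, ∀ z, f z = c) ∧
    lowerOrder f = (lam : EReal) ∧ L = Lam f}

/-- `C_∞`: the infimum of `Λ_∞(f)` over the entire functions `f` of infinite order. -/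
noncomputable def CInf : EReal :=
  sInf {L : EReal | ∃ f : ℂ → ℂ, Differentiable ℂ f ∧ order f = ⊤ ∧ L = LamInf f}

/-- The growth exponent of `f`: the lower limit of `log log a_f(r) / log log r` as `r → ∞`. -/
noncomputable def growthExp (f : ℂ → ℂ) : EReal :=
  liminf (fun r : ℝ =>
    ((Real.log (Real.log (logM f r)) / Real.log (Real.log r) : ℝ) : EReal)) atTop

/-- The infimum of `Λ_∞(f)` over the entire functions `f` of infinite order whose growth exponent is
at most `k`. -/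
noncomputable def CGrowth (k : ℝ) : EReal :=
  sInf {L : EReal | ∃ f : ℂ → ℂ, Differentiable ℂ f ∧ order f = ⊤ ∧ growthExp f ≤ (k : EReal) ∧
    L = LamInf f}

/-- **Minimum modulus of entire functions.**
(1) `C_∞ = -2`.
(2) `C(λ) / log λ` tends to `-2` as `λ → ∞`.
(3) If `f` is an entire function of infinite order with growth exponent at most `k`, where `k ≥ 1`, then
`Λ_∞(f) ≥ -2 + 2 / k`.
(4) For every integer `K ≥ 3` and `ε > 0` there is an entire function `f` of infinite order for which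
`log log a_f(r) / log log r` tends to `K` and `Λ_∞(f) ≤ -2 + 4 / K + ε`.
(5), (6) So the infimum `C_∞(k)` of `Λ_∞(f)` over the entire functions `f` of infinite order with growth
exponent at most `k` satisfies `-2 + 2 / k ≤ C_∞(k)` for `k ≥ 1` and `C_∞(k) ≤ -2 + 4 / ⌊k⌋` for `k ≥ 3`.
(7) An entire function of infinite order with `Λ_∞(f) = -2` has growth exponent `∞`.
(8) `Λ_∞(f) = 0` for every entire function `f` of infinite order which has growth exponent at most `1` or
finite lower order. -/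
theorem result :
    CInf = (-2 : EReal) ∧
    Tendsto (fun lam : ℝ => C lam / (Real.log lam : EReal)) atTop (𝓝 (-2 : EReal)) ∧
    (∀ f : ℂ → ℂ, Differentiable ℂ f → order f = ⊤ → ∀ k : ℝ, 1 ≤ k → growthExp f ≤ (k : EReal) →
      ((-2 + 2 / k : ℝ) : EReal) ≤ LamInf f) ∧
    (∀ K : ℕ, 3 ≤ K → ∀ ε : ℝ, 0 < ε → ∃ f : ℂ → ℂ, Differentiable ℂ f ∧ order f = ⊤ ∧
      Tendsto (fun r : ℝ => Real.log (Real.log (logM f r)) / Real.log (Real.log r)) atTop
        (𝓝 (K : ℝ)) ∧
      LamInf f ≤ ((-2 + 4 / K + ε : ℝ) : EReal)) ∧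
    (∀ k : ℝ, 1 ≤ k → ((-2 + 2 / k : ℝ) : EReal) ≤ CGrowth k) ∧
    (∀ k : ℝ, 3 ≤ k → CGrowth k ≤ ((-2 + 4 / ⌊k⌋₊ : ℝ) : EReal)) ∧
    (∀ f : ℂ → ℂ, Differentiable ℂ f → order f = ⊤ → LamInf f = (-2 : EReal) →
      growthExp f = ⊤) ∧
    (∀ f : ℂ → ℂ, Differentiable ℂ f → order f = ⊤ →
      growthExp f ≤ ((1 : ℝ) : EReal) ∨ lowerOrder f < ⊤ → LamInf f = (0 : EReal)) := by
  have hlow : ∀ f : ℂ → ℂ, Differentiable ℂ f → order f = ⊤ → ∀ k : ℝ, 1 ≤ k →
      growthExp f ≤ (k : EReal) → ((-2 + 2 / k : ℝ) : EReal) ≤ LamInf f := by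
    intro f hf ho k hk hg
    have h := Pool.Agent.H85.GE.lamInf_ge hf ho hk hg
    have e : -(2 * (1 - 1 / k)) = -2 + 2 / k := by ring
    rw [e] at h
    exact h
  have hupp : ∀ K : ℕ, 3 ≤ K → ∀ ε : ℝ, 0 < ε → ∃ f : ℂ → ℂ, Differentiable ℂ f ∧ order f = ⊤ ∧
      Tendsto (fun r : ℝ => Real.log (Real.log (logM f r)) / Real.log (Real.log r)) atTop
        (𝓝 (K : ℝ)) ∧
      LamInf f ≤ ((-2 + 4 / K + ε : ℝ) : EReal) := by
    intro K hK ε hε
    obtain ⟨f, hf, ho, hgf, hev⟩ := Pool.Agent.H59.GE.upperK Pool.Agent.H59.GE.hgr K hK (min ε (1 / 4))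
      (lt_min hε (by norm_num)) (lt_of_le_of_lt (min_le_right _ _) (by norm_num))
    refine ⟨f, hf, ho, hgf, ?_⟩
    refine (Pool.Agent.H85.GE.lamInf_le hev).trans ?_
    rw [EReal.coe_le_coe_iff]
    have h1 := min_le_left ε (1 / 4)
    have h2 : 2 * (1 - 2 / (K : ℝ)) = 2 - 4 / K := by ring
    rw [h2]
    linarith
  refine ⟨Pool.Agent.W646.CI.final, MinMod.G.C_over_log_tendsto, hlow, hupp, ?_, ?_, ?_, ?_⟩
  · intro k hk
    refine le_sInf ?_
    rintro L ⟨f, hf, ho, hg, rfl⟩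
    exact hlow f hf ho k hk hg
  · intro k hk
    have hK : 3 ≤ ⌊k⌋₊ := Nat.le_floor (by exact_mod_cast hk)
    refine le_of_forall_gt ?_
    intro c hc
    obtain ⟨t, ht1, ht2⟩ := EReal.lt_iff_exists_real_btwn.1 hc
    rw [EReal.coe_lt_coe_iff] at ht1
    obtain ⟨f, hf, ho, hgf, hle⟩ := hupp ⌊k⌋₊ hK (t - (-2 + 4 / ⌊k⌋₊)) (by linarith)
    have h1 : growthExp f = ((⌊k⌋₊ : ℝ) : EReal) :=
      ((continuous_coe_real_ereal.tendsto _).comp hgf).liminf_eq
    have h2 : growthExp f ≤ (k : EReal) := by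
      rw [h1, EReal.coe_le_coe_iff]
      exact Nat.floor_le (by linarith)
    have h3 : CGrowth k ≤ LamInf f := sInf_le ⟨f, hf, ho, h2, rfl⟩
    refine lt_of_le_of_lt (h3.trans hle) ?_
    refine lt_of_le_of_lt (le_of_eq ?_) ht2
    rw [EReal.coe_eq_coe_iff]
    ring
  · intro f hf ho h
    exact Pool.Agent.H85.GE.gexp_top hf ho (le_of_eq h)
  · rintro f hf ho (h | h)
    · exact Pool.Agent.H85.GE.lamInf_zero hf ho h
    · exact Pool.Agent.H85.GE.lamInf_zero hf ho (Pool.Agent.H85.GE.gexp_le_one hf ho h)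

end Pool.Agent.Results.MP_06ac62_an.GrowthExponent
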